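import Pool.Agent.Q172.LT.Inf

/-!
# Reversing at most half of the edges of a labelled oriented tree

The 2-complex `K` of a finite labelled oriented tree has the 1-cells `x_v` (`v` a vertex) and the
2-cells with boundary `x_i x_l x_t⁻¹ x_l⁻¹`, where `i`, `t`, `l` are the initial vertex, the terminal
vertex and the label of an edge (labels are arbitrary vertices).  If a 2-cell is attached along one
loop `x_{v₀}`, the result is a finite contractible 2-complex.

Definitions (`LOG`, `Conn`, `ContractibleWith`, `Folds`, `LocInd`: `Pool.Agent.TH625.LOG`, starting
library; all others: `Pool.Agent.Q172.LT`).

* `reorient L o`: the edges `e` with `o e = true` are reversed;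
* `Aspherical L`: the boundary operator from the 2-chains to the 1-chains of the universal covering
  is injective; `Good L`: `Aspherical L`, every closed diagram in the universal covering is
  reducible, and the fundamental group is locally indicable;
* `GoodOn L A`: all subcomplexes with 2-cells in `A` are good.
-/

set_option autoImplicit false

namespace Pool.Agent.Results.MP_6de9fc_gt.HalfReversed

open Pool.Agent.TH625.LOG Pool.Agent.Q172.LT

/-- Let `L` be a finite labelled oriented tree and `v₀` a vertex.  The complex of `L` with a 2-cell
along `x_{v₀}` is contractible, and there is a set of at most half of the edges of `L` such that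

(a) if these edges are reversed, the new complex (which is also contractible with a 2-cell along
`x_{v₀}`) and all its subcomplexes are aspherical, with reducible diagrams and locally indicable
fundamental groups;

(b) the same holds for all subcomplexes of the complex of `L` itself all whose 2-cells belong to these
edges;

(c) the same holds for all subcomplexes of the complex of `L` all whose 2-cells belong to the other
edges. -/
theorem result {V E : Type} [Fintype V] [Fintype E] [DecidableEq V] [DecidableEq E] (L : LOG V E)
    (hL : L.Conn) (hc : Fintype.card V = Fintype.card E + 1) (v₀ : V) :
    L.ContractibleWith v₀ ∧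
    ∃ o : E → Bool, 2 * (Finset.univ.filter fun e => o e = true).card ≤ Fintype.card E ∧
      (reorient L o).ContractibleWith v₀ ∧ GoodOn (reorient L o) Set.univ ∧
      GoodOn L {e | o e = true} ∧ GoodOn L {e | o e = false} := by
  obtain ⟨β₀⟩ := exists_numbering hc v₀
  obtain ⟨o, h1, h2, h3, h4⟩ := exists_half L hL v₀ β₀
  refine ⟨contractibleWith _ hL hc v₀, o, h1, contractibleWith _ (reorient_conn L hL o) hc v₀, ?_,
    h4, h3⟩
  rcases h2 with h | h
  · exact goodOn_univ_left _ h
  · exact goodOn_univ_right _ h

end Pool.Agent.Results.MP_6de9fc_gt.HalfReversed
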