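import Pool.Agent.Q172.LT.Far

/-!
# Labelled intervals: contractible complexes all of whose subcomplexes are aspherical

Let `I` be the interval with the vertices `0, …, n` and the edges `j — j+1`, every edge being labelled
by an arbitrary vertex.  An orientation `o` of the edges gives the 2-complex `K(o)` with the 1-cells
`x_0, …, x_n` and the 2-cells with boundary `x_i x_l x_t⁻¹ x_l⁻¹`, where `i`, `t`, `l` are the initial
vertex, the terminal vertex and the label of an edge.  Let `f` be one more 2-cell, attached along the
loop `x_0`.  Then `K(o) ∪ f` is a finite contractible 2-complex.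

Definitions (`LOG`, `ContractibleWith`, `LocInd`: `Pool.Agent.TH625.LOG`, starting library; all
others: `Pool.Agent.Q172.LT`).

* `interval lab`: the labelled interval with the edges oriented `j → j+1`; `reorient L o`: the edges
  `e` with `o e = true` are reversed;
* `LeftOn L C`: for every edge both ends of which lie in `C` join its initial vertex with its label or,
  if the label does not lie in `C`, with its terminal vertex; the graph which arises is a forest;
* `sub L W F`: the subcomplex with the 1-cells `W` and the 2-cells `F`; `Aspherical`: the boundary
  operator `C₂ → C₁` of its universal covering is injective;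
* `AsphericalF`, `Gf`: the same, and the fundamental group, for the subcomplex together with `f`;
* `AllGood L v₀`: all subcomplexes of `K ∪ f`, with and without `f`, are aspherical and have locally
  indicable fundamental groups.
-/

set_option autoImplicit false

namespace Pool.Agent.Results.MP_6de9fc_gt.LabelledIntervals

open Pool.Agent.TH625.LOG Pool.Agent.Q172.LT

/-- The test: the left graphs on the vertices `≥ v` are forests, for all `v`. -/
def Test {n : ℕ} (L : LOG (Fin (n + 1)) (Fin n)) : Prop := ∀ v, LeftOn L {w | v ≤ w}

/-- For every labelled interval with `n` edges:

(1) all `2 ^ n` complexes `K(o) ∪ f` are contractible;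

(2) an odd number of the orientations pass the test;

(3) if `o` passes the test then all subcomplexes of `K(o) ∪ f`, with and without `f`, are aspherical and
have locally indicable fundamental groups;

(4) every orientation can be changed at no more than `n / 2` edges such that the new orientation has
the property in (3). -/
theorem result (n : ℕ) (lab : Fin n → Fin (n + 1)) :
    (∀ o : Fin n → Bool, (reorient (interval lab) o).ContractibleWith 0) ∧
    Odd (Nat.card {o : Fin n → Bool // Test (reorient (interval lab) o)}) ∧
    (∀ o : Fin n → Bool, Test (reorient (interval lab) o) →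
      AllGood (reorient (interval lab) o) 0) ∧
    ∀ o₀ : Fin n → Bool, ∃ o : Fin n → Bool,
      2 * (Finset.univ.filter fun e => o e ≠ o₀ e).card ≤ n ∧
      AllGood (reorient (interval lab) o) 0 := by
  set L := interval lab with hL
  let r : Rooted L 0 := intervalRoot lab
  have hc := conn_of_rooted L r
  have hcard : Fintype.card (Fin (n + 1)) = Fintype.card (Fin n) + 1 := by simp
  have hd : Function.Injective r.dep := Fin.val_injective
  have hbr : ∀ v, r.branch v = {w | v ≤ w} := by
    intro v
    ext w
    exact r.desc_iff hd v w
  have htest : ∀ o, Test (reorient L o) ↔ ∀ v, LeftOn (reorient L o) (r.branch v) := by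
    intro o
    refine forall_congr' fun v => ?_
    rw [hbr]
  have hpair : ∀ o, (∀ v, LeftOn (reorient L o) (r.branch v)) →
      AllGood (reorient L o) 0 ∧ AllGood (reorient L fun e => !o e) 0 := by
    intro o ho
    exact ⟨(r.reor o).allGood_of_tests hd (Or.inl ho),
      (r.reor fun e => !o e).allGood_of_tests hd (Or.inr fun v => rightOn_compl L _ o (ho v))⟩
  obtain ⟨o₁, ho₁⟩ := r.exists_branches
  obtain ⟨β⟩ := exists_numbering hcard (0 : Fin (n + 1))
  refine ⟨fun o => contractibleWith _ (reorient_conn L hc o) hcard 0, ?_,
    fun o ho => (hpair o ((htest o).1 ho)).1, fun o₀ => ?_⟩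
  · have h := r.odd_branches hc β
    rw [Nat.card_congr (Equiv.subtypeEquivRight htest)]
    exact h
  · have h := exists_near (fun o => AllGood (reorient L o) 0) o₁ (hpair o₁ ho₁).1 (hpair o₁ ho₁).2 o₀
    rw [Fintype.card_fin] at h
    exact h

end Pool.Agent.Results.MP_6de9fc_gt.LabelledIntervals
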