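import Pool.Agent.Q172.LT.Inf

/-!
# The Alexander polynomials of the orientations of a labelled tree

A labelled tree is a finite tree with a label of every edge, which is an arbitrary vertex.  An
orientation `o` of its `n` edges gives a labelled oriented tree; its 2-complex `K(o)` has the
1-cells `x_v` (`v` a vertex) and the 2-cells with boundary `x_i x_l x_t⁻¹ x_l⁻¹`, where `i`, `t`, `l`
are the initial vertex, the terminal vertex and the label of an edge.  If a 2-cell is attached along
one loop `x_{v₀}`, the result is a finite contractible 2-complex.

Definitions (`LOG`, `Conn`, `ContractibleWith`, `Folds`, `LocInd`: `Pool.Agent.TH625.LOG`, starting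
library; all others: `Pool.Agent.Q172.LT`).

* `reorient L o`: the edges `e` with `o e = true` are reversed;
* `alexDet L v₀ β`: the determinant of the Alexander matrix, with rows
  `[i] - X [t] + (X - 1) [l]`, without the column `v₀`, the other columns being numbered by the
  edges by means of `β`; `alex L v₀ β` is the product of this determinant and its value at `1`;
* `IsForest a b`: the graph with the edges `{a e, b e}` is a forest;
* `Aspherical L`: the boundary operator from the 2-chains to the 1-chains of the universal covering
  is injective; `Good L`: `Aspherical L`, every closed diagram in the universal covering is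
  reducible, and the fundamental group is locally indicable;
* `GoodOn L A`: all subcomplexes with 2-cells in `A` are good.
-/

set_option autoImplicit false

namespace Pool.Agent.Results.MP_6de9fc_gt.OrientationParity

open Polynomial Pool.Agent.TH625.LOG Pool.Agent.Q172.LT

/-- The left graph, with the edges `{ini e, lab e}`, is a tree (it has as many edges as the tree). -/
def LeftTree {V E : Type} (L : LOG V E) : Prop := IsForest L.ini L.lab

/-- The right graph, with the edges `{ter e, lab e}`, is a tree. -/
def RightTree {V E : Type} (L : LOG V E) : Prop := IsForest L.ter L.lab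

/-- Let `L` be a finite labelled oriented tree with `n` edges and `v₀` a vertex.

(1) The complexes of all `2 ^ n` orientations are subcomplexes of contractible complexes. Their
normalised Alexander polynomials `Δ_o` have the sum `(1 + X) ^ n`, whatever the labels are.

(2) `Δ_o(1) = 1`; the constant coefficient of `Δ_o` is `0`, `1` or `-1`, and it is not `0` if and only
if the left graph is a tree; the same for the coefficient of `X ^ n` and the right graph.

(3) The number of the orientations whose left graph is a tree is odd, and so is the number of the
orientations whose right graph is a tree.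

(4) If the left graph or the right graph of an orientation is a tree then all subcomplexes of its
complex are aspherical, with reducible diagrams and locally indicable fundamental groups. -/
theorem result {V E : Type} [Fintype V] [Fintype E] [DecidableEq V] [DecidableEq E] (L : LOG V E)
    (hL : L.Conn) (hc : Fintype.card V = Fintype.card E + 1) (v₀ : V) :
    (∀ o : E → Bool, (reorient L o).ContractibleWith v₀) ∧
    Nonempty (E ≃ {v : V // v ≠ v₀}) ∧
    (∀ β : E ≃ {v : V // v ≠ v₀},
      ∑ o : E → Bool, alex (reorient L o) v₀ β = (1 + X) ^ Fintype.card E ∧
      ∀ o : E → Bool, (alex (reorient L o) v₀ β).eval 1 = 1 ∧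
        ((alex (reorient L o) v₀ β).coeff 0 = 0 ∨ (alex (reorient L o) v₀ β).coeff 0 = 1 ∨
          (alex (reorient L o) v₀ β).coeff 0 = -1) ∧
        ((alex (reorient L o) v₀ β).coeff 0 ≠ 0 ↔ LeftTree (reorient L o)) ∧
        ((alex (reorient L o) v₀ β).coeff (Fintype.card E) = 0 ∨
          (alex (reorient L o) v₀ β).coeff (Fintype.card E) = 1 ∨
          (alex (reorient L o) v₀ β).coeff (Fintype.card E) = -1) ∧
        ((alex (reorient L o) v₀ β).coeff (Fintype.card E) ≠ 0 ↔ RightTree (reorient L o)) ∧
        (alex (reorient L o) v₀ β).natDegree ≤ Fintype.card E) ∧
    Odd (Nat.card {o : E → Bool // LeftTree (reorient L o)}) ∧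
    Odd (Nat.card {o : E → Bool // RightTree (reorient L o)}) ∧
    (∀ o : E → Bool, LeftTree (reorient L o) ∨ RightTree (reorient L o) →
      GoodOn (reorient L o) Set.univ) := by
  obtain ⟨β₀⟩ := exists_numbering hc v₀
  refine ⟨fun o => contractibleWith _ (reorient_conn L hL o) hc v₀, ⟨β₀⟩, fun β => ?_,
    odd_left L hL v₀ β₀, odd_right L hL v₀ β₀, ?_⟩
  · refine ⟨sum_alex L hL v₀ β, fun o => ?_⟩
    obtain ⟨h1, h2⟩ := coeff_zero_spec _ (reorient_conn L hL o) v₀ β
    obtain ⟨h3, h4⟩ := coeff_card_spec _ (reorient_conn L hL o) v₀ β
    exact ⟨alex_eval _ (reorient_conn L hL o) v₀ β, h1, h2, h3, h4, alex_natDegree _ v₀ β⟩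
  · rintro o (h | h)
    · exact goodOn_univ_left _ h
    · exact goodOn_univ_right _ h

end Pool.Agent.Results.MP_6de9fc_gt.OrientationParity
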